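import Pool.Agent.Results.MP_29cb78_nt.LargerModuli
import Pool.Agent.X163.Stark.Cubic

/-!
# Stark's conjecture over complex cubic fields: from larger moduli to smaller ones

`K` is a complex cubic field, `ι` one of its two embeddings which are not real, `𝔪 ≠ (0), (1)` an ideal, `G` a finite abelian group,
`c` a narrow class map modulo `𝔪` (for example the narrow ray class group and the class of an ideal) and `ζ_𝔪(g, s)` the partial zeta
functions. `H/K` is a Galois extension with group `G` (`art : G ≅ Gal(H/K)`), `τ` an embedding of `H` above `ι` (for example the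
narrow ray class field `K(𝔪)` and the place `v`). `N ≥ 2` is an integer in `𝔪`; `ρ = c((N - 1))` is the sign class, the class of
all the `(x)` with `x ≡ 1` modulo `𝔪` which are negative in the real embedding.

A Stark unit for `𝔪` with exponent `e` is a unit `u` of `H` with `ζ_𝔪'(g, 0) = - (1/e) log |τ(art(g) u)|²` for all `g` (condition 2 of Q1)
and absolute value `1` in all the embeddings above the real embedding of `K` (condition 1). Condition 3: `u` has an `e`-th root in an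
abelian extension of `K`.

1. If `v ∤ 𝔪` is a prime ideal in the sign class, `c(v) = c((N - 1))`, and there is a Stark unit for `𝔪 v`, then the square of the Stark unit
   for `𝔪` exists in `H`.
2. If `v₁, v₂` are two such primes, `e` and the degrees `[H'₁ : H]`, `[H'₂ : H]` are even, `H'₁ ∩ H'₂ = H`, the roots of unity of the compositum
   are in `H`, and there are Stark units with the condition 3 for `𝔪 v₁` and `𝔪 v₂`, then the Stark unit for `𝔪` exists: conditions 1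
   and 2 of Q1.

So if Q1 (even only the existence of the unit) fails for `𝔪`, then it fails for all the larger moduli `𝔪 v` as in 2 with at
most one exception.
-/

set_option autoImplicit false

open IsDedekindDomain NumberField

namespace Pool.Agent.Results.MP_d9f52e_nt.LargerModuli

open Pool.Agent.Results.MP_29cb78_nt.LargerModuli

variable {K : Type} [Field K] [NumberField K] {G : Type} [CommGroup G] [Fintype G]

omit [CommGroup G] [Fintype G] in
/-- the sign class is the class of `(N - 1)`, `N ≥ 2` an integer in `𝔪` -/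
theorem odd_class (hd : Module.finrank ℚ K = 3) (hK : InfinitePlace.nrComplexPlaces K = 1) (𝔪 : Ideal (𝓞 K))
    (c : Ideal (𝓞 K) → G) {N : ℕ} (hN : 2 ≤ N) (hN𝔪 : (N : 𝓞 K) ∈ 𝔪) :
    IsOddClass 𝔪 c (c (Ideal.span {((N - 1 : ℕ) : 𝓞 K)})) := by
  refine ⟨-((N - 1 : ℕ) : 𝓞 K), ?_, ?_, ?_, ?_⟩
  · rw [neg_ne_zero, Nat.cast_ne_zero]
    omega
  · have h : -((N - 1 : ℕ) : 𝓞 K) - 1 = -(N : 𝓞 K) := by
      rw [Nat.cast_sub (by omega), Nat.cast_one]
      ring
    rw [h]
    exact 𝔪.neg_mem hN𝔪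
  · have h1 : negatives (-((N - 1 : ℕ) : 𝓞 K)) = 1 := by
      unfold negatives
      refine (Nat.card_congr (Equiv.subtypeUnivEquiv fun σ => ?_)).trans
        (Pool.Agent.X163.Stark.card_real_cubic hd hK)
      have h2 : σ ((-((N - 1 : ℕ) : 𝓞 K) : 𝓞 K) : K) = -((N - 1 : ℕ) : ℝ) := by
        push_cast
        simp
      rw [h2, neg_lt_zero, Nat.cast_pos]
      omega
    rw [h1]
    exact odd_one
  · rw [Ideal.span_singleton_neg]

theorem result (K : Type) [Field K] [NumberField K] (hd : Module.finrank ℚ K = 3)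
    (hK : InfinitePlace.nrComplexPlaces K = 1) (ι : K →+* ℂ) (hι : ¬ComplexEmbedding.IsReal ι) (𝔪 : Ideal (𝓞 K))
    (h0 : 𝔪 ≠ ⊥) (h1 : 𝔪 ≠ ⊤) (G : Type) [CommGroup G] [Fintype G] (c : Ideal (𝓞 K) → G) (hc : IsClassMap 𝔪 c)
    (Z : G → ℂ → ℂ) (hZ : IsPartialZeta 𝔪 c Z) (H : Type) [Field H] [NumberField H] [Algebra K H] [IsGalois K H]
    (art : G ≃* Gal(H/K)) (τ : H →+* ℂ) (hτ : τ.comp (algebraMap K H) = ι) (e : ℕ) (he : 0 < e)
    (N : ℕ) (hN : 2 ≤ N) (hN𝔪 : (N : 𝓞 K) ∈ 𝔪) :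
    -- 1. one prime
    (∀ (L : Layer 𝔪 c art τ) (u : (𝓞 L.H')ˣ), L.IsStark e u →
      (∃ w : (𝓞 H)ˣ, IsStarkUnit art τ e (fun g => deriv (Z g) 0 - deriv (Z (g * (c L.v.asIdeal)⁻¹)) 0) w) ∧
      (c L.v.asIdeal = c (Ideal.span {((N - 1 : ℕ) : 𝓞 K)}) →
        ∃ w : (𝓞 H)ˣ, IsStarkUnit art τ e (fun g => 2 * deriv (Z g) 0) w)) ∧
    -- 2. two primes
    (Even e → ∀ (L₁ L₂ : Layer 𝔪 c art τ) (u₁ : (𝓞 L₁.H')ˣ) (u₂ : (𝓞 L₂.H')ˣ),
      c L₁.v.asIdeal = c L₂.v.asIdeal → Even (Nat.card L₁.π.ker) → Even (Nat.card L₂.π.ker) →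
      Independent τ L₁.τ' L₂.τ' → L₁.IsStark e u₁ → L₂.IsStark e u₂ → HasAbelianRoot K e u₁ → HasAbelianRoot K e u₂ →
      (∃ w : (𝓞 H)ˣ, IsStarkUnit art τ e (fun g => (deriv (Z g) 0 - deriv (Z (g * (c L₁.v.asIdeal)⁻¹)) 0) / 2) w) ∧
      (c L₁.v.asIdeal = c (Ideal.span {((N - 1 : ℕ) : 𝓞 K)}) →
        ∃ w : (𝓞 H)ˣ, IsStarkUnit art τ e (fun g => deriv (Z g) 0) w)) := by
  have hodd := odd_class hd hK 𝔪 c hN hN𝔪
  obtain ⟨r1, r2⟩ := Pool.Agent.Results.MP_29cb78_nt.LargerModuli.result K hK ι hι 𝔪 h0 h1 G c hc Z hZ H art τ hτ e he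
  refine ⟨fun L u hu => ⟨(r1 L u hu).1, fun h => (r1 L u hu).2 (by rw [h]; exact hodd)⟩,
    fun hee L₁ L₂ u₁ u₂ g1 g2 g3 g4 g5 g6 g7 g8 => ?_⟩
  have h := r2 hee L₁ L₂ u₁ u₂ g1 g2 g3 g4 g5 g6 g7 g8
  exact ⟨h.1, fun hρ => h.2 (by rw [hρ]; exact hodd)⟩

end Pool.Agent.Results.MP_d9f52e_nt.LargerModuli
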