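import Pool.Agent.Results.MP_29cb78_nt.UnitPolynomials
import Pool.Agent.X163.Stark.Cubic

/-!
# Stark's conjecture over complex cubic fields: cases in which it is true, and the units without the class field

`K` is a complex cubic field, `ι` one of its two embeddings which are not real, `𝔪 ≠ (0), (1)` an ideal, `G` a finite abelian group and
`c` a narrow class map modulo `𝔪`: a map from the ideals to `G`, multiplicative on the ideals prime to `𝔪` and trivial on the `(x)`,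
`x ≡ 1` modulo `𝔪`, `x` positive in the real embedding (for example the narrow ray class group modulo `𝔪`). `Z(g, s)`
are the partial zeta functions, continued. For a fixed `γ > π/2` let `𝒮(T)` be the sum over the primes and
`D_g(T) = T e^{-Λ(γ)} [exp 𝒮(T)]_g` (see the definitions). UNCONDITIONALLY:

1. The continuations exist, the sums converge absolutely, `Z(g, 0) = 0`, `Z'(g, 0)` is real and `D_g(T) = Z'(g, 0) + O(1/T)`.
2. (sign law) Let `N ≥ 2` be an integer in `𝔪`. Then `Z'(g c((N - 1)), 0) = - Z'(g, 0)` for all `g`.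
3. (cases in which Q1 is true) If `c((N - 1)) = 1` for such an `N` (the real place does not ramify), then `Z'(g, 0) = 0` for all
   `g`, and `u = 1` satisfies 1, 2, 3 of Q1 in every Galois extension `H/K` with group `G`. This is always so if `𝔪` divides `(2)`.
4. (consequences of Q1) If `u` is a unit with the properties 1, 2, 3 of Q1 in `H/K` (`art : G ≅ Gal(H/K)`), then for every
   `θ = ∑ n_A A ∈ ℤ[G]` which annihilates the `e`-th roots of unity of `H`:
   (P_θ) there is a monic polynomial `Q` over `O_K` with `ι(Q) = ∏_g (x - z_g)`, `|z_g|² = exp(- ∑_A n_A Z'(g A, 0))`, all of whose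
   roots in the real embedding have absolute value `1`.
5. (criterion) For every `θ ∈ ℤ[G]` the statement (P_θ) holds if and only if for all `δ > 0` and arbitrarily large `T` there is a
   vector `v` with `|v_g - exp(- ∑_A n_A Re D_{gA}(T))| < δ` for all `g`, among the vectors which come from a monic polynomial over
   `O_K` in this way; there are only finitely many of these in bounded sets.
-/

set_option autoImplicit false

open Filter Topology Asymptotics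
open IsDedekindDomain NumberField

namespace Pool.Agent.Results.MP_d9f52e_nt.UnitPolynomials

open Pool.Agent.Results.MP_29cb78_nt.UnitPolynomials

variable {K : Type} [Field K] [NumberField K] {G : Type} [CommGroup G] [Fintype G]

theorem negatives_one (hd : Module.finrank ℚ K = 3) (hK : InfinitePlace.nrComplexPlaces K = 1) {N : ℕ} (hN : 2 ≤ N) :
    negatives (-((N - 1 : ℕ) : 𝓞 K)) = 1 := by
  unfold negatives
  refine (Nat.card_congr (Equiv.subtypeUnivEquiv fun σ => ?_)).trans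
    (Pool.Agent.X163.Stark.card_real_cubic hd hK)
  have h2 : σ ((-((N - 1 : ℕ) : 𝓞 K) : 𝓞 K) : K) = -((N - 1 : ℕ) : ℝ) := by
    push_cast
    simp
  rw [h2, neg_lt_zero, Nat.cast_pos]
  omega

omit [NumberField K] in
theorem mem_sub {𝔪 : Ideal (𝓞 K)} {N : ℕ} (hN : 2 ≤ N) (hN𝔪 : (N : 𝓞 K) ∈ 𝔪) : -((N - 1 : ℕ) : 𝓞 K) - 1 ∈ 𝔪 := by
  have h : -((N - 1 : ℕ) : 𝓞 K) - 1 = -(N : 𝓞 K) := by
    rw [Nat.cast_sub (by omega), Nat.cast_one]
    ring
  rw [h]
  exact 𝔪.neg_mem hN𝔪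

theorem ne_zero' {N : ℕ} (hN : 2 ≤ N) : -((N - 1 : ℕ) : 𝓞 K) ≠ 0 := by
  rw [neg_ne_zero, Nat.cast_ne_zero]
  omega

omit [NumberField K] [Fintype G] in
theorem class_two {𝔪 : Ideal (𝓞 K)} {c : Ideal (𝓞 K) → G} (hc : IsClassMap 𝔪 c) :
    c (Ideal.span {((2 - 1 : ℕ) : 𝓞 K)}) = 1 := by
  have e1 : Ideal.span {((2 - 1 : ℕ) : 𝓞 K)} = ⊤ := by
    have e2 : (2 - 1 : ℕ) = 1 := rfl
    rw [e2, Nat.cast_one, Ideal.span_singleton_one]
  rw [e1]
  have h2 : IsCoprime (⊤ : Ideal (𝓞 K)) 𝔪 := by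
    rw [← Ideal.one_eq_top]
    exact isCoprime_one_left
  have h3 := hc.mul ⊤ ⊤ h2 h2
  rw [Ideal.top_mul] at h3
  exact left_eq_mul.1 h3

theorem result (K : Type) [Field K] [NumberField K] (hd : Module.finrank ℚ K = 3)
    (hK : InfinitePlace.nrComplexPlaces K = 1) (ι : K →+* ℂ)
    (hι : ¬ComplexEmbedding.IsReal ι) (𝔪 : Ideal (𝓞 K)) (h0 : 𝔪 ≠ ⊥) (h1 : 𝔪 ≠ ⊤) (G : Type) [CommGroup G] [Fintype G]
    (c : Ideal (𝓞 K) → G) (hc : IsClassMap 𝔪 c) (γ : ℝ) (hγ : Real.pi / 2 < γ) :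
    (∃ Z : G → ℂ → ℂ, IsPartialZeta 𝔪 c Z) ∧
    (∀ (T : ℝ) (g : G), 0 < T → Summable fun x => ‖term 𝔪 c γ T g x‖) ∧
    -- bounded sets contain only finitely many of the vectors
    (∀ B : ℝ, {v : G → ℝ | IsCircleVector ι v ∧ ∀ g, v g ≤ B}.Finite) ∧
    ∀ Z : G → ℂ → ℂ, IsPartialZeta 𝔪 c Z →
      -- 1. the values as limits
      (∀ g, Z g 0 = 0 ∧ (deriv (Z g) 0).im = 0 ∧
        (fun T : ℝ => approx 𝔪 c γ T g - deriv (Z g) 0) =O[atTop] (fun T : ℝ => 1 / T)) ∧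
      -- 2. the sign law
      (∀ N : ℕ, 2 ≤ N → (N : 𝓞 K) ∈ 𝔪 → ∀ g,
        deriv (Z (g * c (Ideal.span {((N - 1 : ℕ) : 𝓞 K)}))) 0 = -deriv (Z g) 0) ∧
      -- 3. cases in which Q1 is true
      ((2 : 𝓞 K) ∈ 𝔪 ∨ (∃ N : ℕ, 2 ≤ N ∧ (N : 𝓞 K) ∈ 𝔪 ∧ c (Ideal.span {((N - 1 : ℕ) : 𝓞 K)}) = 1) →
        (∀ g, deriv (Z g) 0 = 0) ∧
        ∀ (H : Type) [Field H] [NumberField H] [Algebra K H] [IsGalois K H] (art : G ≃* Gal(H/K)) (τ : H →+* ℂ)
          (e : ℕ), τ.comp (algebraMap K H) = ι → 0 < e → (∃ ζ : H, IsPrimitiveRoot ζ e) →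
          IsStarkUnit ι art τ e Z 1) ∧
      -- 4. consequences of Q1
      (∀ (H : Type) [Field H] [NumberField H] [Algebra K H] [IsGalois K H] (art : G ≃* Gal(H/K)) (τ : H →+* ℂ)
        (e : ℕ) (u : (𝓞 H)ˣ), IsStarkUnit ι art τ e Z u → ∀ n : G → ℤ, Annihilates art e n →
          IsCircleVector ι (twist n fun g => deriv (Z g) 0)) ∧
      -- 5. the criterion
      (∀ n : G → ℤ, IsCircleVector ι (twist n fun g => deriv (Z g) 0) ↔
        ∀ δ > 0, ∀ T₀ : ℝ, ∃ T ≥ T₀, ∃ v : G → ℝ, IsCircleVector ι v ∧ ∀ g, |v g - twist n (approx 𝔪 c γ T) g| < δ) := by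
  obtain ⟨r1, r2, r3, r4⟩ :=
    Pool.Agent.Results.MP_29cb78_nt.UnitPolynomials.result K hK ι hι 𝔪 h0 h1 G c hc γ hγ
  refine ⟨r1, r2, r3, fun Z hZ => ?_⟩
  obtain ⟨s1, s2, s3, s4, s5⟩ := r4 Z hZ
  refine ⟨s1, fun N hN hN𝔪 g => ?_, fun h => ?_, s4, s5⟩
  · have h := s2 (-((N - 1 : ℕ) : 𝓞 K)) (ne_zero' hN) (mem_sub hN hN𝔪) g
    rw [negatives_one hd hK hN, Ideal.span_singleton_neg] at h
    rw [h]
    ring
  · have h2 : ∃ N : ℕ, 2 ≤ N ∧ (N : 𝓞 K) ∈ 𝔪 ∧ c (Ideal.span {((N - 1 : ℕ) : 𝓞 K)}) = 1 := by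
      rcases h with h | h
      · exact ⟨2, le_rfl, by rw [Nat.cast_ofNat]; exact h, class_two hc⟩
      · exact h
    obtain ⟨N, hN, hN𝔪, hcN⟩ := h2
    refine s3 (-((N - 1 : ℕ) : 𝓞 K)) (ne_zero' hN) (mem_sub hN hN𝔪) ?_ ?_
    · rw [Ideal.span_singleton_neg]
      exact hcN
    · rw [negatives_one hd hK hN]
      exact odd_one

end Pool.Agent.Results.MP_d9f52e_nt.UnitPolynomials
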